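import Pool.Agent.X117.Arc2

/-!
# The arches of the derivatives of Hardy's function

Unconditionally, for every derivative `Z^(m)` of Hardy's function and each sign `σ`: the number of arches of sign
`σ` in `[T, 2 T]` whose peak is at least `(log T) ^ (m + κ)` is at least `T (log T) ^ (1 - κ ^ 2 - ε)` for all
`κ ≥ 0`, and at most `C T (log T) ^ (1 - κ ^ 2)` for `1/2 < κ ≤ 2`; the sum of the `2 k`-th powers of the peaks is at
least `T (log T) ^ (k ^ 2 + 2 k m + 1 - ε)` for all `k > 0`, and at most `C T (log T) ^ (k ^ 2 + 2 k m + 1)`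
for `1/2 < k ≤ 2`. Numbers and sums over arches are expressed by finite sets of points with a zero of `Z^(m)`
between any two of them.
-/

open Filter Topology Complex MeasureTheory

namespace Pool.Agent.Results.MP_80d0cf_nt.ArchesOfDerivatives

/-- the phase `exp (i ϑ(t))`, with `ϑ(t) = arg Γ(1/4 + i t / 2) - (t / 2) log π` -/
noncomputable def phase (t : ℝ) : ℂ :=
  Gamma (1 / 4 + I * t / 2) / ‖Gamma (1 / 4 + I * t / 2)‖ * cexp (-(I * (t / 2) * Real.log Real.pi))

/-- Hardy's function `Z(t) = exp (i ϑ(t)) ζ(1/2 + i t)`; the product is real, see `Z_eq` -/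
noncomputable def Z (t : ℝ) : ℝ := (phase t * riemannZeta (1 / 2 + I * t)).re

theorem Z_eq (t : ℝ) : ((Z t : ℝ) : ℂ) = phase t * riemannZeta (1 / 2 + I * t) :=
  Pool.Agent.X117.HZ.Z_eq t

/-- the points of the finite set `P` lie in `[T, 2 T]`, with `σ Z^(m) > 0` at each of them and a zero of `Z^(m)`
between any two of them: so they lie on different arches of sign `σ` -/
def OnArches (σ : ℝ) (m : ℕ) (T : ℝ) (P : Finset ℝ) : Prop :=
  (∀ p ∈ P, T ≤ p ∧ p ≤ 2 * T ∧ 0 < σ * iteratedDeriv m Z p) ∧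
    ∀ p ∈ P, ∀ q ∈ P, p < q → ∃ z, p < z ∧ z < q ∧ iteratedDeriv m Z z = 0

/-- the number of arches of sign `σ` with peak at least `V`: the supremum of the number of elements of the sets `P`
of points on different arches with `|Z^(m)| ≥ V` on `P` -/
noncomputable def number (σ : ℝ) (m : ℕ) (V T : ℝ) : ENNReal :=
  ⨆ (P : Finset ℝ) (_ : OnArches σ m T P ∧ ∀ p ∈ P, V ≤ |iteratedDeriv m Z p|), (P.card : ENNReal)

/-- the sum over the arches of sign `σ` of the `2 k`-th powers of the peaks: the supremum of the sum of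
`|Z^(m)| ^ (2 k)` over the sets `P` of points on different arches -/
noncomputable def moment (σ : ℝ) (m : ℕ) (k T : ℝ) : ENNReal :=
  ⨆ (P : Finset ℝ) (_ : OnArches σ m T P), ∑ p ∈ P, ENNReal.ofReal (|iteratedDeriv m Z p| ^ (2 * k))

/-- `log (f / T) / log log T → a` from bounds up to `(log T) ^ ε` -/
lemma tendsto_of_bounds {f : ℝ → ℝ} {a : ℝ}
    (hlo : ∀ ε : ℝ, 0 < ε → ∀ᶠ T : ℝ in atTop, T * Real.log T ^ (a - ε) ≤ f T)
    (hup : ∀ ε : ℝ, 0 < ε → ∀ᶠ T : ℝ in atTop, f T ≤ T * Real.log T ^ (a + ε)) :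
    Tendsto (fun T : ℝ => Real.log (f T / T) / Real.log (Real.log T)) atTop (𝓝 a) := by
  rw [Metric.tendsto_nhds]
  intro e he
  filter_upwards [hlo (e / 2) (by positivity), hup (e / 2) (by positivity),
    (Real.tendsto_log_atTop.comp Real.tendsto_log_atTop).eventually_ge_atTop 1,
    Real.tendsto_log_atTop.eventually_ge_atTop 1, eventually_ge_atTop 1] with T h1 h2 h3 h4 h5
  have hT0 : 0 < T := by linarith
  have hL0 : 0 < Real.log T := by linarith
  have h3' : 1 ≤ Real.log (Real.log T) := h3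
  have hLL0 : 0 < Real.log (Real.log T) := by linarith
  have p1 : Real.log T ^ (a - e / 2) ≤ f T / T := by
    rw [le_div_iff₀ hT0]; linarith
  have p2 : f T / T ≤ Real.log T ^ (a + e / 2) := by
    rw [div_le_iff₀ hT0]; linarith
  have p0 : 0 < f T / T := lt_of_lt_of_le (Real.rpow_pos_of_pos hL0 _) p1
  have q1 : (a - e / 2) * Real.log (Real.log T) ≤ Real.log (f T / T) := by
    have := Real.log_le_log (Real.rpow_pos_of_pos hL0 _) p1
    rwa [Real.log_rpow hL0] at this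
  have q2 : Real.log (f T / T) ≤ (a + e / 2) * Real.log (Real.log T) := by
    have := Real.log_le_log p0 p2
    rwa [Real.log_rpow hL0] at this
  rw [Real.dist_eq, abs_lt]
  constructor
  · have : a - e / 2 ≤ Real.log (f T / T) / Real.log (Real.log T) := by
      rw [le_div_iff₀ hLL0]; exact q1
    linarith
  · have : Real.log (f T / T) / Real.log (Real.log T) ≤ a + e / 2 := by
      rw [div_le_iff₀ hLL0]; exact q2
    linarith

/-- the exact exponent from an upper bound of the exact order and lower bounds up to `(log T) ^ ε` -/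
lemma tendsto_of_orders {F : ℝ → ENNReal} {a C : ℝ}
    (hlo : ∀ ε : ℝ, 0 < ε → ∀ᶠ T : ℝ in atTop, ENNReal.ofReal (T * Real.log T ^ (a - ε)) ≤ F T)
    (hup : ∀ᶠ T : ℝ in atTop, F T ≤ ENNReal.ofReal (C * (T * Real.log T ^ a))) :
    Tendsto (fun T : ℝ => Real.log ((F T).toReal / T) / Real.log (Real.log T)) atTop (𝓝 a) := by
  refine tendsto_of_bounds (fun ε hε => ?_) fun ε hε => ?_
  · filter_upwards [hlo ε hε, hup] with T h3 h4
    exact (ENNReal.ofReal_le_iff_le_toReal (ne_top_of_le_ne_top ENNReal.ofReal_ne_top h4)).mp h3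
  · have hLε : Tendsto (fun T : ℝ => Real.log T ^ ε) atTop atTop :=
      (tendsto_rpow_atTop hε).comp Real.tendsto_log_atTop
    filter_upwards [hup, hLε.eventually_ge_atTop (|C|), Real.tendsto_log_atTop.eventually_ge_atTop 1,
      eventually_ge_atTop 1] with T h1 h2 hL hT1
    have hL0 : 0 < Real.log T := by linarith
    have h3 : 0 ≤ T * Real.log T ^ a := by positivity
    have h4 : F T ≤ ENNReal.ofReal (|C| * (T * Real.log T ^ a)) :=
      h1.trans (ENNReal.ofReal_le_ofReal (mul_le_mul_of_nonneg_right (le_abs_self C) h3))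
    refine (ENNReal.toReal_le_of_le_ofReal (by positivity) h4).trans ?_
    rw [Real.rpow_add hL0]
    nlinarith

/-- a large set of points on different arches -/
lemma lower (m : ℕ) (κ : ℝ) {ε : ℝ} (hε : 0 < ε) {σ : ℝ} (hσ : σ = 1 ∨ σ = -1) :
    ∀ᶠ T : ℝ in atTop, ∃ P : Finset ℝ, OnArches σ m T P ∧ T * Real.log T ^ (1 - κ ^ 2 - ε) ≤ (P.card : ℝ) ∧
      ∀ p ∈ P, Real.log T ^ (m + κ) ≤ |iteratedDeriv m Z p| := by
  filter_upwards [Pool.Agent.X117.AR.arc_ge m κ hε hσ, Real.tendsto_log_atTop.eventually_ge_atTop 1] with T hT hL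
  obtain ⟨P, ⟨h1, h2⟩, h3, h4⟩ := hT
  have hL0 : 0 < Real.log T := by linarith
  have hpos : ∀ p ∈ P, 0 < σ * iteratedDeriv m Z p := fun p hp =>
    lt_of_lt_of_le (Real.rpow_pos_of_pos hL0 _) (h4 p hp)
  refine ⟨P, ⟨fun p hp => ⟨(h1 p hp).1, (h1 p hp).2, hpos p hp⟩, fun p hp q hq hpq => ?_⟩, h3, fun p hp => ?_⟩
  · obtain ⟨z, z1, z2, z3⟩ := h2 p hp q hq hpq
    have z3 : iteratedDeriv m Z z = 0 := z3
    refine ⟨z, lt_of_le_of_ne z1 ?_, lt_of_le_of_ne z2 ?_, z3⟩
    · intro h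
      have h5 := hpos p hp
      rw [h, z3, mul_zero] at h5
      exact lt_irrefl _ h5
    · intro h
      have h5 := hpos q hq
      rw [← h, z3, mul_zero] at h5
      exact lt_irrefl _ h5
  · have h5 : Real.log T ^ (m + κ) ≤ σ * iteratedDeriv m Z p := h4 p hp
    rwa [Pool.Agent.X117.JM.sign_abs hσ (hpos p hp)] at h5

lemma sep_of {σ : ℝ} {m : ℕ} {T : ℝ} {P : Finset ℝ} (h : OnArches σ m T P) : Pool.Agent.X117.AR.Sep m T P := by
  refine ⟨fun p hp => ⟨(h.1 p hp).1, (h.1 p hp).2.1⟩, fun p hp q hq hpq => ?_⟩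
  obtain ⟨z, z1, z2, z3⟩ := h.2 p hp q hq hpq
  exact ⟨z, z1.le, z2.le, z3⟩

/-- **the arches of the derivatives of Hardy's function** -/
theorem result : ∀ (m : ℕ) (σ : ℝ), (σ = 1 ∨ σ = -1) →
    -- the number of high arches
    (∀ κ ε : ℝ, 0 ≤ κ → 0 < ε → ∃ T₀ : ℝ, ∀ T : ℝ, T₀ ≤ T →
      ENNReal.ofReal (T * Real.log T ^ (1 - κ ^ 2 - ε)) ≤ number σ m (Real.log T ^ (m + κ)) T) ∧
    (∀ κ : ℝ, 1 / 2 < κ → κ ≤ 2 →
      (∃ C T₀ : ℝ, ∀ T : ℝ, T₀ ≤ T →
        number σ m (Real.log T ^ (m + κ)) T ≤ ENNReal.ofReal (C * (T * Real.log T ^ (1 - κ ^ 2)))) ∧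
      Tendsto (fun T : ℝ => Real.log ((number σ m (Real.log T ^ (m + κ)) T).toReal / T) /
        Real.log (Real.log T)) atTop (𝓝 (1 - κ ^ 2))) ∧
    -- the moments of the peaks
    (∀ k ε : ℝ, 0 < k → 0 < ε → ∃ T₀ : ℝ, ∀ T : ℝ, T₀ ≤ T →
      ENNReal.ofReal (T * Real.log T ^ (k ^ 2 + 2 * k * m + 1 - ε)) ≤ moment σ m k T) ∧
    ∀ k : ℝ, 1 / 2 < k → k ≤ 2 →
      (∃ C T₀ : ℝ, ∀ T : ℝ, T₀ ≤ T →
        moment σ m k T ≤ ENNReal.ofReal (C * (T * Real.log T ^ (k ^ 2 + 2 * k * m + 1)))) ∧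
      Tendsto (fun T : ℝ => Real.log ((moment σ m k T).toReal / T) / Real.log (Real.log T)) atTop
        (𝓝 (k ^ 2 + 2 * k * m + 1)) := by
  intro m σ hσ
  have hnum : ∀ κ ε : ℝ, 0 < ε → ∀ᶠ T : ℝ in atTop,
      ENNReal.ofReal (T * Real.log T ^ (1 - κ ^ 2 - ε)) ≤ number σ m (Real.log T ^ (m + κ)) T := by
    intro κ ε hε
    filter_upwards [lower m κ hε hσ] with T hT
    obtain ⟨P, h1, h2, h3⟩ := hT
    refine le_trans ?_ (le_iSup₂_of_le P ⟨h1, h3⟩ le_rfl)
    rw [← ENNReal.ofReal_natCast]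
    exact ENNReal.ofReal_le_ofReal h2
  have hmom : ∀ k ε : ℝ, 0 < k → 0 < ε → ∀ᶠ T : ℝ in atTop,
      ENNReal.ofReal (T * Real.log T ^ (k ^ 2 + 2 * k * m + 1 - ε)) ≤ moment σ m k T := by
    intro k ε hk hε
    filter_upwards [lower m k hε hσ, Real.tendsto_log_atTop.eventually_ge_atTop 1] with T hT hL
    obtain ⟨P, h1, h2, h3⟩ := hT
    have hL0 : 0 < Real.log T := by linarith
    refine le_trans ?_ (le_iSup₂_of_le P h1 le_rfl)
    rw [← ENNReal.ofReal_sum_of_nonneg fun p _ => Real.rpow_nonneg (abs_nonneg _) _]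
    refine ENNReal.ofReal_le_ofReal ?_
    calc T * Real.log T ^ (k ^ 2 + 2 * k * m + 1 - ε)
        = T * Real.log T ^ (1 - k ^ 2 - ε) * (Real.log T ^ (m + k)) ^ (2 * k) := by
          rw [← Real.rpow_mul hL0.le, mul_assoc T, ← Real.rpow_add hL0]
          congr 2
          ring
      _ ≤ (P.card : ℝ) * (Real.log T ^ (m + k)) ^ (2 * k) := by gcongr
      _ = ∑ _p ∈ P, (Real.log T ^ (m + k)) ^ (2 * k) := by rw [Finset.sum_const, nsmul_eq_mul]
      _ ≤ _ := Finset.sum_le_sum fun p hp => Real.rpow_le_rpow (by positivity) (h3 p hp) (by linarith)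
  refine ⟨fun κ ε _ hε => Filter.eventually_atTop.mp (hnum κ ε hε), fun κ hκ hκ2 => ?_,
    fun k ε hk hε => Filter.eventually_atTop.mp (hmom k ε hk hε), fun k hk hk2 => ?_⟩
  · obtain ⟨C, -, hC⟩ := Pool.Agent.X117.AR.arc_le m (s := 2 * κ) (by linarith) (by linarith)
    have hup : ∀ᶠ T : ℝ in atTop,
        number σ m (Real.log T ^ (m + κ)) T ≤ ENNReal.ofReal (C * (T * Real.log T ^ (1 - κ ^ 2))) := by
      filter_upwards [hC, Real.tendsto_log_atTop.eventually_ge_atTop 1, eventually_ge_atTop 1] with T h1 hL hT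
      have hL0 : 0 < Real.log T := by linarith
      set Y : ℝ := (Real.log T ^ (m + κ)) ^ (2 * κ) with hY
      have hY0 : 0 < Y := by positivity
      refine iSup₂_le fun P hP => ?_
      have h2 := h1 P (sep_of hP.1)
      have h3 : (P.card : ENNReal) * ENNReal.ofReal Y ≤
          ∑ p ∈ P, ENNReal.ofReal (|iteratedDeriv m Z p| ^ (2 * κ)) := by
        rw [← nsmul_eq_mul, ← Finset.sum_const]
        refine Finset.sum_le_sum fun p hp => ENNReal.ofReal_le_ofReal ?_
        exact Real.rpow_le_rpow (by positivity) (hP.2 p hp) (by linarith)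
      have h4 := h3.trans h2
      have h5 : ENNReal.ofReal (C * (T * Real.log T ^ ((2 * κ) ^ 2 / 4 + m * (2 * κ) + 1))) =
          ENNReal.ofReal (C * (T * Real.log T ^ (1 - κ ^ 2))) * ENNReal.ofReal Y := by
        rw [← ENNReal.ofReal_mul' hY0.le]
        congr 1
        rw [hY, ← Real.rpow_mul hL0.le, mul_assoc, mul_assoc, ← Real.rpow_add hL0]
        congr 3
        ring
      rw [h5] at h4
      exact (ENNReal.mul_le_mul_iff_left (by simpa using hY0) ENNReal.ofReal_ne_top).mp h4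
    exact ⟨⟨C, Filter.eventually_atTop.mp hup⟩, tendsto_of_orders (fun ε hε => hnum κ ε hε) hup⟩
  · obtain ⟨C, -, hC⟩ := Pool.Agent.X117.AR.arc_le m (s := 2 * k) (by linarith) (by linarith)
    have hup : ∀ᶠ T : ℝ in atTop,
        moment σ m k T ≤ ENNReal.ofReal (C * (T * Real.log T ^ (k ^ 2 + 2 * k * m + 1))) := by
      filter_upwards [hC] with T h1
      refine iSup₂_le fun P hP => (h1 P (sep_of hP)).trans (le_of_eq ?_)
      congr 4
      ring
    exact ⟨⟨C, Filter.eventually_atTop.mp hup⟩, tendsto_of_orders (fun ε hε => hmom k ε (by linarith) hε) hup⟩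

end Pool.Agent.Results.MP_80d0cf_nt.ArchesOfDerivatives
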