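import Pool.Agent.X117.Deriv7

/-!
# Values and moments of one sign of the derivatives of Hardy's function

Unconditionally, for every derivative `Z^(m)` with `m ≥ 1` and both signs `σ`: for `0 < κ ≤ 2` the set of the
`t ∈ [T, 2 T]` with `σ Z^(m)(t) ≥ (log T) ^ (m + κ)` has measure `T (log T) ^ (-κ ^ 2 + o(1))`; the `2 k`-th moment
of the positive part of `σ Z^(m)` is at least `T (log T) ^ (k ^ 2 + 2 k m - ε)` for every real `k > 0`, and
`T (log T) ^ (k ^ 2 + 2 k m + o(1))` for `0 < k ≤ 2`.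
-/

open Filter Topology Complex MeasureTheory

namespace Pool.Agent.Results.MP_80d0cf_nt.DerivativesOfHardysFunction

/-- the phase `exp (i ϑ(t))`, with `ϑ(t) = arg Γ(1/4 + i t / 2) - (t / 2) log π` -/
noncomputable def phase (t : ℝ) : ℂ :=
  Gamma (1 / 4 + I * t / 2) / ‖Gamma (1 / 4 + I * t / 2)‖ * cexp (-(I * (t / 2) * Real.log Real.pi))

/-- Hardy's function `Z(t) = exp (i ϑ(t)) ζ(1/2 + i t)`; the product is real, see `Z_eq` -/
noncomputable def Z (t : ℝ) : ℝ := (phase t * riemannZeta (1 / 2 + I * t)).re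

theorem Z_eq (t : ℝ) : ((Z t : ℝ) : ℂ) = phase t * riemannZeta (1 / 2 + I * t) :=
  Pool.Agent.X117.HZ.Z_eq t

/-- the `t ∈ [T, 2 T]` with `σ Z^(m)(t) ≥ (log T) ^ (m + κ)` -/
def large (σ : ℝ) (m : ℕ) (κ T : ℝ) : Set ℝ :=
  {t : ℝ | T ≤ t ∧ t ≤ 2 * T ∧ Real.log T ^ (m + κ) ≤ σ * iteratedDeriv m Z t}

/-- the `2 k`-th moment of the positive part of `σ Z^(m)` on `[T, 2 T]` -/
noncomputable def moment (σ : ℝ) (m : ℕ) (k T : ℝ) : ℝ :=
  ∫ t in T..(2 * T), max (σ * iteratedDeriv m Z t) 0 ^ (2 * k)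

/-- `log (f / T) / log log T → a` from bounds up to `(log T) ^ ε` -/
lemma tendsto_of_bounds {f : ℝ → ℝ} {a : ℝ}
    (hlo : ∀ ε : ℝ, 0 < ε → ∀ᶠ T : ℝ in atTop, T * Real.log T ^ (a - ε) ≤ f T)
    (hup : ∀ ε : ℝ, 0 < ε → ∀ᶠ T : ℝ in atTop, f T ≤ T * Real.log T ^ (a + ε)) :
    Tendsto (fun T : ℝ => Real.log (f T / T) / Real.log (Real.log T)) atTop (𝓝 a) := by
  rw [Metric.tendsto_nhds]
  intro e he
  filter_upwards [hlo (e / 2) (by positivity), hup (e / 2) (by positivity),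
    (Real.tendsto_log_atTop.comp Real.tendsto_log_atTop).eventually_ge_atTop 1,
    Real.tendsto_log_atTop.eventually_ge_atTop 1, eventually_ge_atTop 1] with T h1 h2 h3 h4 h5
  have hT0 : 0 < T := by linarith
  have hL0 : 0 < Real.log T := by linarith
  have h3' : 1 ≤ Real.log (Real.log T) := h3
  have hLL0 : 0 < Real.log (Real.log T) := by linarith
  have p1 : Real.log T ^ (a - e / 2) ≤ f T / T := by
    rw [le_div_iff₀ hT0]; linarith
  have p2 : f T / T ≤ Real.log T ^ (a + e / 2) := by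
    rw [div_le_iff₀ hT0]; linarith
  have p0 : 0 < f T / T := lt_of_lt_of_le (Real.rpow_pos_of_pos hL0 _) p1
  have q1 : (a - e / 2) * Real.log (Real.log T) ≤ Real.log (f T / T) := by
    have := Real.log_le_log (Real.rpow_pos_of_pos hL0 _) p1
    rwa [Real.log_rpow hL0] at this
  have q2 : Real.log (f T / T) ≤ (a + e / 2) * Real.log (Real.log T) := by
    have := Real.log_le_log p0 p2
    rwa [Real.log_rpow hL0] at this
  rw [Real.dist_eq, abs_lt]
  constructor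
  · have : a - e / 2 ≤ Real.log (f T / T) / Real.log (Real.log T) := by
      rw [le_div_iff₀ hLL0]; exact q1
    linarith
  · have : Real.log (f T / T) / Real.log (Real.log T) ≤ a + e / 2 := by
      rw [div_le_iff₀ hLL0]; exact q2
    linarith

/-- a constant factor is at most `(log T) ^ ε` -/
lemma const_le {f : ℝ → ℝ} {a C : ℝ} (h : ∀ᶠ T : ℝ in atTop, f T ≤ C * (T * Real.log T ^ a)) {ε : ℝ}
    (hε : 0 < ε) : ∀ᶠ T : ℝ in atTop, f T ≤ T * Real.log T ^ (a + ε) := by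
  have hLε : Tendsto (fun T : ℝ => Real.log T ^ ε) atTop atTop :=
    (tendsto_rpow_atTop hε).comp Real.tendsto_log_atTop
  filter_upwards [h, hLε.eventually_ge_atTop C, Real.tendsto_log_atTop.eventually_ge_atTop 1,
    eventually_ge_atTop 1] with T h1 h2 hL hT1
  have hL0 : 0 < Real.log T := by linarith
  refine h1.trans ?_
  rw [Real.rpow_add hL0]
  have h3 : 0 ≤ T * Real.log T ^ a := by positivity
  nlinarith

/-- **values and moments of the derivatives of Hardy's function of each sign** -/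
theorem result : ∀ (m : ℕ) (σ : ℝ), 1 ≤ m → (σ = 1 ∨ σ = -1) →
    (∀ κ : ℝ, 0 < κ → κ ≤ 2 →
      (∃ C T₀ : ℝ, ∀ T : ℝ, T₀ ≤ T → volume.real (large σ m κ T) ≤ C * (T * Real.log T ^ (-κ ^ 2))) ∧
      Tendsto (fun T : ℝ => Real.log (volume.real (large σ m κ T) / T) / Real.log (Real.log T))
        atTop (𝓝 (-κ ^ 2))) ∧
    (∀ k ε : ℝ, 0 < k → 0 < ε → ∃ T₀ : ℝ, ∀ T : ℝ, T₀ ≤ T →
      T * Real.log T ^ (k ^ 2 + 2 * k * m - ε) ≤ moment σ m k T) ∧
    (∀ k : ℝ, 0 < k → k ≤ 2 →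
      (∃ C T₀ : ℝ, ∀ T : ℝ, T₀ ≤ T → moment σ m k T ≤ C * (T * Real.log T ^ (k ^ 2 + 2 * k * m))) ∧
      Tendsto (fun T : ℝ => Real.log (moment σ m k T / T) / Real.log (Real.log T))
        atTop (𝓝 (k ^ 2 + 2 * k * m))) := by
  intro m σ hm hσ
  obtain ⟨n, rfl⟩ : ∃ n, m = n + 1 := ⟨m - 1, by omega⟩
  have hmom : ∀ k : ℝ, 0 < k → ∀ ε : ℝ, 0 < ε → ∀ᶠ T : ℝ in atTop,
      T * Real.log T ^ (k ^ 2 + 2 * k * ((n + 1 : ℕ) : ℝ) - ε) ≤ moment σ (n + 1) k T := by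
    intro k hk ε hε
    filter_upwards [Pool.Agent.X117.DZ.pmom_ge hk hε n hσ] with T hT
    have e1 : k ^ 2 + 2 * k * ((n + 1 : ℕ) : ℝ) - ε = k ^ 2 + 2 * k * (n + 1) - ε := by
      push_cast
      ring
    rw [e1]
    exact hT
  refine ⟨?_, ?_, ?_⟩
  · intro κ h0 h2
    obtain ⟨C, -, hC⟩ := Pool.Agent.X117.DZ.big_le h0 h2 n hσ
    exact ⟨⟨C, Filter.eventually_atTop.mp hC⟩,
      tendsto_of_bounds (fun ε hε => Pool.Agent.X117.DZ.big_ge h0 h2 hε n hσ) fun ε hε => const_le hC hε⟩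
  · intro k ε hk hε
    exact Filter.eventually_atTop.mp (hmom k hk ε hε)
  · intro k h0 h2
    obtain ⟨C, -, hC⟩ := Pool.Agent.X117.DZ.pmom_le h0 h2 (n + 1) hσ
    exact ⟨⟨C, Filter.eventually_atTop.mp hC⟩,
      tendsto_of_bounds (fun ε hε => hmom k h0 ε hε) fun ε hε => const_le hC hε⟩

end Pool.Agent.Results.MP_80d0cf_nt.DerivativesOfHardysFunction
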