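import Pool.Agent.X107.MU.MU25

/-!
# Large values of zeta on the critical line at ordinates described by universality

For a compact subset `K` of the strip `1/2 < Re z < 1`, a function `f` and `ε > 0` let `S` be the set of the
real `t` for which `|ζ(z + it) - f(z)| ≤ ε` for all `z` in `K`. If `f` is a target of the universality theorem,
then for every real `κ ≥ 0` the measure of the `t` in `[0, T] ∩ S` with `|ζ(1/2 + it)| ≥ (log T)^κ` is at least
`T (log T)^(-κ² - η)` for every `η > 0` and all large `T`; for `κ ≤ 2` it is `T (log T)^(-κ² + o(1))`.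
These are the large values (with their conjectured frequency) from which the `2κ`-th moment is expected to come:
they occur at the ordinates at which zeta, to the right of the line, is close to any given target.
-/

set_option autoImplicit false

open Complex Filter Set MeasureTheory Topology

namespace Pool.Agent.Results.MP_80d0cf_nt.LargeValuesAndUniversality

/-- the real `t` for which `z ↦ ζ(z + it)` is uniformly on `K` at distance at most `ε` from `f` -/
def S (ε : ℝ) (K : Set ℂ) (f : ℂ → ℂ) : Set ℝ :=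
  {t : ℝ | ∀ z ∈ K, ‖riemannZeta (z + t * I) - f z‖ ≤ ε}

/-- `|ζ(1/2 + it)|` -/
noncomputable def Z (t : ℝ) : ℝ := ‖riemannZeta (1 / 2 + t * I)‖

/-- the `t` in `[0, T]` and in `S` with `|ζ(1/2 + it)| ≥ (log T)^κ` -/
def Large (κ ε : ℝ) (K : Set ℂ) (f : ℂ → ℂ) (T : ℝ) : Set ℝ :=
  {t ∈ Icc 0 T ∩ S ε K f | Real.log T ^ κ ≤ Z t}

/-- the hull of `K`: the union of `K` and of the bounded components of its complement -/
def hull (K : Set ℂ) : Set ℂ :=
  K ∪ {z | z ∉ K ∧ Bornology.IsBounded (connectedComponentIn Kᶜ z)}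

/-- `g` is continuous on `L`, holomorphic in the interior of `L`, and on each component of the
interior of `L` either free of zeros or identically zero. -/
structure Good (L : Set ℂ) (g : ℂ → ℂ) : Prop where
  cont : ContinuousOn g L
  hol : DifferentiableOn ℂ g (interior L)
  comp : ∀ z ∈ interior L, (∀ w ∈ connectedComponentIn (interior L) z, g w ≠ 0) ∨
    (∀ w ∈ connectedComponentIn (interior L) z, g w = 0)

/-- `f` extends from `K` to a good function on the hull of `K` -/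
def IsTarget (K : Set ℂ) (f : ℂ → ℂ) : Prop := ∃ g : ℂ → ℂ, (∀ z ∈ K, g z = f z) ∧ Good (hull K) g

lemma isTarget_iff (K : Set ℂ) (f : ℂ → ℂ) : IsTarget K f ↔ Pool.Agent.Y834.UT.Tgt K f := by
  constructor
  · rintro ⟨g, h1, h2, h3, h4⟩
    exact ⟨g, h1, h2, h3, h4⟩
  · rintro ⟨g, h1, h2, h3, h4⟩
    exact ⟨g, h1, h2, h3, h4⟩

lemma z_eq (t : ℝ) : Z t = ‖riemannZeta (((1 / 2 : ℝ) : ℂ) + (t : ℂ) * Complex.I)‖ := by
  unfold Z
  push_cast
  rfl

lemma z_cont : Continuous Z := by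
  have := Pool.Agent.X107.MU.line_cont (σ := 1 / 2) (by norm_num) one_pos
  simp only [Real.rpow_one] at this
  exact this.congr fun t => (z_eq t).symm

lemma z_nonneg (t : ℝ) : 0 ≤ Z t := norm_nonneg _

lemma S_meas {K : Set ℂ} (hKs : ∀ z ∈ K, 1 / 2 < z.re ∧ z.re < 1) (f : ℂ → ℂ) (ε : ℝ) : MeasurableSet (S ε K f) :=
  Pool.Agent.X107.MU.UT_meas hKs f ε

lemma Large_ge {K : Set ℂ} {f : ℂ → ℂ} (hK : IsCompact K) (hKs : ∀ z ∈ K, 1 / 2 < z.re ∧ z.re < 1)
    (hf : IsTarget K f) {κ ε η : ℝ} (hκ : 0 ≤ κ) (hε : 0 < ε) (hη : 0 < η) :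
    ∀ᶠ T : ℝ in atTop, T * Real.log T ^ (-κ ^ 2 - η) ≤ volume.real (Large κ ε K f T) := by
  rw [isTarget_iff] at hf
  refine (Pool.Agent.X107.MU.large_tgt hK hKs hf hε hκ hη).mono fun T hT => ?_
  refine hT.trans (le_of_eq ?_)
  congr 1
  ext t
  constructor
  · rintro ⟨h1, h2⟩
    exact ⟨h1, by rw [z_eq]; exact h2⟩
  · rintro ⟨h1, h2⟩
    exact ⟨h1, by rw [z_eq] at h2; exact h2⟩

/-- the measure of the large values from above -/
lemma large_le {κ : ℝ} (h0 : 0 < κ) (h2 : κ ≤ 2) : ∃ C : ℝ, 0 < C ∧ ∀ᶠ T : ℝ in atTop,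
    volume.real {t ∈ Icc 0 T | Real.log T ^ κ ≤ Z t} ≤ C * (T * Real.log T ^ (-κ ^ 2)) := by
  obtain ⟨C, hC, h⟩ := Pool.Agent.X107.MU.upper_line h0 h2
  refine ⟨C, hC, ?_⟩
  filter_upwards [h, Real.tendsto_log_atTop.eventually_ge_atTop 1] with T hT hL
  have hL0 : 0 < Real.log T := by linarith
  have e1 : ∀ t : ℝ, ‖riemannZeta (((1 / 2 : ℝ) : ℂ) + (t : ℂ) * Complex.I)‖ = Z t := fun t => (z_eq t).symm
  simp_rw [e1] at hT
  have hzc : Continuous fun t => Z t ^ (2 * κ) := z_cont.rpow_const fun _ => Or.inr (by positivity)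
  have hm : MeasurableSet {t ∈ Icc 0 T | Real.log T ^ κ ≤ Z t} :=
    measurableSet_Icc.inter (isClosed_le continuous_const z_cont).measurableSet
  have hsub : {t ∈ Icc 0 T | Real.log T ^ κ ≤ Z t} ⊆ Icc 0 T := fun t ht => ht.1
  have hfin : volume {t ∈ Icc 0 T | Real.log T ^ κ ≤ Z t} ≠ ⊤ :=
    ne_top_of_le_ne_top (by simp [Real.volume_Icc]) (measure_mono hsub)
  have h1 : ∫ _t in {t ∈ Icc 0 T | Real.log T ^ κ ≤ Z t}, Real.log T ^ (2 * κ ^ 2) ≤
      ∫ t in {t ∈ Icc 0 T | Real.log T ^ κ ≤ Z t}, Z t ^ (2 * κ) := by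
    refine setIntegral_mono_on (integrableOn_const hfin)
      ((hzc.continuousOn.integrableOn_compact isCompact_Icc).mono_set hsub) hm fun t ht => ?_
    have := Real.rpow_le_rpow (by positivity) ht.2 (show 0 ≤ 2 * κ by positivity)
    rw [← Real.rpow_mul hL0.le] at this
    refine le_trans (le_of_eq ?_) this
    congr 1
    ring
  have h3 : ∫ t in {t ∈ Icc 0 T | Real.log T ^ κ ≤ Z t}, Z t ^ (2 * κ) ≤ ∫ t in Icc 0 T, Z t ^ (2 * κ) :=
    setIntegral_mono_set (hzc.continuousOn.integrableOn_compact isCompact_Icc)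
      (Eventually.of_forall fun t => Real.rpow_nonneg (z_nonneg t) _) (Eventually.of_forall hsub)
  rw [setIntegral_const, smul_eq_mul] at h1
  have h4 := h1.trans (h3.trans hT)
  have h5 : Real.log T ^ (κ ^ 2) = Real.log T ^ (-κ ^ 2) * Real.log T ^ (2 * κ ^ 2) := by
    rw [← Real.rpow_add hL0]
    congr 1
    ring
  rw [h5] at h4
  have hp : 0 < Real.log T ^ (2 * κ ^ 2) := by positivity
  refine le_of_mul_le_mul_right (le_trans h4 (le_of_eq ?_)) hp
  ring

/-- a constant factor is at most `(log T) ^ η` -/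
lemma const_le {g : ℝ → ℝ} {a C : ℝ} (h : ∀ᶠ T : ℝ in atTop, g T ≤ C * (T * Real.log T ^ a)) {η : ℝ}
    (hη : 0 < η) : ∀ᶠ T : ℝ in atTop, g T ≤ T * Real.log T ^ (a + η) := by
  have hLη : Tendsto (fun T : ℝ => Real.log T ^ η) atTop atTop :=
    (tendsto_rpow_atTop hη).comp Real.tendsto_log_atTop
  filter_upwards [h, hLη.eventually_ge_atTop C, Real.tendsto_log_atTop.eventually_ge_atTop 1,
    eventually_ge_atTop 1] with T h1 h2 hL hT1
  have hL0 : 0 < Real.log T := by linarith
  refine h1.trans ?_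
  rw [Real.rpow_add hL0]
  have h3 : 0 ≤ T * Real.log T ^ a := by positivity
  nlinarith

/-- `log (g / T) / log log T → a` from bounds up to `(log T) ^ η` -/
lemma tendsto_of_bounds {g : ℝ → ℝ} {a : ℝ}
    (hlo : ∀ η : ℝ, 0 < η → ∀ᶠ T : ℝ in atTop, T * Real.log T ^ (a - η) ≤ g T)
    (hup : ∀ η : ℝ, 0 < η → ∀ᶠ T : ℝ in atTop, g T ≤ T * Real.log T ^ (a + η)) :
    Tendsto (fun T : ℝ => Real.log (g T / T) / Real.log (Real.log T)) atTop (𝓝 a) := by
  rw [Metric.tendsto_nhds]
  intro e he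
  filter_upwards [hlo (e / 2) (by positivity), hup (e / 2) (by positivity),
    (Real.tendsto_log_atTop.comp Real.tendsto_log_atTop).eventually_ge_atTop 1,
    Real.tendsto_log_atTop.eventually_ge_atTop 1, eventually_ge_atTop 1] with T h1 h2 h3 h4 h5
  have hT0 : 0 < T := by linarith
  have hL0 : 0 < Real.log T := by linarith
  have h3' : 1 ≤ Real.log (Real.log T) := h3
  have hLL0 : 0 < Real.log (Real.log T) := by linarith
  have p1 : Real.log T ^ (a - e / 2) ≤ g T / T := by
    rw [le_div_iff₀ hT0]; linarith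
  have p2 : g T / T ≤ Real.log T ^ (a + e / 2) := by
    rw [div_le_iff₀ hT0]; linarith
  have p0 : 0 < g T / T := lt_of_lt_of_le (Real.rpow_pos_of_pos hL0 _) p1
  have q1 : (a - e / 2) * Real.log (Real.log T) ≤ Real.log (g T / T) := by
    have := Real.log_le_log (Real.rpow_pos_of_pos hL0 _) p1
    rwa [Real.log_rpow hL0] at this
  have q2 : Real.log (g T / T) ≤ (a + e / 2) * Real.log (Real.log T) := by
    have := Real.log_le_log p0 p2
    rwa [Real.log_rpow hL0] at this
  rw [Real.dist_eq, abs_lt]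
  constructor
  · have : a - e / 2 ≤ Real.log (g T / T) / Real.log (Real.log T) := by
      rw [le_div_iff₀ hLL0]; exact q1
    linarith
  · have : Real.log (g T / T) / Real.log (Real.log T) ≤ a + e / 2 := by
      rw [div_le_iff₀ hLL0]; exact q2
    linarith

/-- **Large values of zeta on the critical line at ordinates described by universality.** -/
theorem result (K : Set ℂ) (f : ℂ → ℂ) (hK : IsCompact K) (hKs : ∀ z ∈ K, 1 / 2 < z.re ∧ z.re < 1)
    (hf : IsTarget K f) (ε : ℝ) (hε : 0 < ε) :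
    -- large values of every size, with at least the conjectured frequency
    (∀ κ : ℝ, 0 ≤ κ → ∀ η : ℝ, 0 < η → ∀ᶠ T : ℝ in atTop,
      T * Real.log T ^ (-κ ^ 2 - η) ≤ volume.real (Large κ ε K f T)) ∧
    -- the exact exponent
    (∀ κ : ℝ, 0 ≤ κ → κ ≤ 2 →
      Tendsto (fun T : ℝ => Real.log (volume.real (Large κ ε K f T) / T) / Real.log (Real.log T)) atTop (𝓝 (-κ ^ 2))) ∧
    -- values in a given range
    (∀ κ : ℝ, 0 ≤ κ → κ < 2 → ∀ a : ℝ, 0 < a → ∀ η : ℝ, 0 < η → ∀ᶠ T : ℝ in atTop,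
      T * Real.log T ^ (-κ ^ 2 - η) ≤ volume.real {t ∈ Large κ ε K f T | Z t ≤ Real.log T ^ (κ + a)}) := by
  have hlow : ∀ κ : ℝ, 0 ≤ κ → ∀ η : ℝ, 0 < η → ∀ᶠ T : ℝ in atTop,
      T * Real.log T ^ (-κ ^ 2 - η) ≤ volume.real (Large κ ε K f T) := fun κ hκ η hη => Large_ge hK hKs hf hκ hε hη
  have hsub : ∀ (κ T : ℝ), Large κ ε K f T ⊆ Icc 0 T := fun κ T t ht => ht.1.1
  have hfin : ∀ T : ℝ, volume (Icc 0 T) ≠ ⊤ := fun T => by simp [Real.volume_Icc]
  refine ⟨hlow, fun κ hκ hκ2 => tendsto_of_bounds (fun η hη => hlow κ hκ η hη) fun η hη => ?_, ?_⟩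
  · rcases hκ.eq_or_lt with rfl | hκ0
    · refine const_le (C := 1) (a := -0 ^ 2) ?_ hη
      filter_upwards [eventually_gt_atTop (0:ℝ)] with T hT0
      have h1 : volume.real (Large 0 ε K f T) ≤ volume.real (Icc 0 T) := measureReal_mono (hsub 0 T) (hfin T)
      have h2 : volume.real (Icc 0 T) = T := by
        rw [Measure.real, Real.volume_Icc, ENNReal.toReal_ofReal (by linarith), sub_zero]
      rw [h2] at h1
      simpa using h1
    · obtain ⟨C, hC, h⟩ := large_le hκ0 hκ2
      refine const_le (C := C) (h.mono fun T hT => le_trans (measureReal_mono ?_ ?_) hT) hη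
      · exact fun t ht => ⟨ht.1.1, ht.2⟩
      · exact ne_top_of_le_ne_top (hfin T) (measure_mono fun t ht => ht.1)
  · intro κ hκ hκ2 a ha η hη
    -- reduce `a`
    obtain ⟨b, hb⟩ : ∃ b, b = min a (2 - κ) := ⟨_, rfl⟩
    have hb0 : 0 < b := by rw [hb]; exact lt_min ha (by linarith)
    have hba : b ≤ a := by rw [hb]; exact min_le_left _ _
    have hb2 : κ + b ≤ 2 := by
      have : b ≤ 2 - κ := by rw [hb]; exact min_le_right _ _
      linarith
    obtain ⟨c, hc⟩ : ∃ c, c = min (η / 2) (b ^ 2 / 2) := ⟨_, rfl⟩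
    have hc0 : 0 < c := by rw [hc]; positivity
    have hc1 : c ≤ η / 2 := by rw [hc]; exact min_le_left _ _
    have hc2 : c ≤ b ^ 2 / 2 := by rw [hc]; exact min_le_right _ _
    obtain ⟨C, hC, hup⟩ := large_le (show 0 < κ + b by linarith) hb2
    have hLc : Tendsto (fun T : ℝ => Real.log T ^ (b ^ 2 / 2)) atTop atTop :=
      (tendsto_rpow_atTop (by positivity)).comp Real.tendsto_log_atTop
    have hLη : Tendsto (fun T : ℝ => Real.log T ^ (η / 2)) atTop atTop :=
      (tendsto_rpow_atTop (by positivity)).comp Real.tendsto_log_atTop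
    filter_upwards [hlow κ hκ c hc0, hup, hLc.eventually_ge_atTop (2 * C), hLη.eventually_ge_atTop 2,
      Real.tendsto_log_atTop.eventually_ge_atTop 1, eventually_gt_atTop (0:ℝ)] with T h1 h2 h3 h4 h5 h6
    have hL0 : 0 < Real.log T := by linarith
    have h7 : Large κ ε K f T ⊆ {t ∈ Large κ ε K f T | Z t ≤ Real.log T ^ (κ + a)} ∪
        {t ∈ Icc 0 T | Real.log T ^ (κ + b) ≤ Z t} := by
      intro t ht
      by_cases h8 : Z t ≤ Real.log T ^ (κ + a)
      · exact Or.inl ⟨ht, h8⟩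
      · refine Or.inr ⟨ht.1.1, ?_⟩
        push Not at h8
        exact (Real.rpow_le_rpow_of_exponent_le h5 (by linarith)).trans h8.le
    have h8 : volume.real (Large κ ε K f T) ≤ volume.real {t ∈ Large κ ε K f T | Z t ≤ Real.log T ^ (κ + a)} +
        volume.real {t ∈ Icc 0 T | Real.log T ^ (κ + b) ≤ Z t} := by
      refine (measureReal_mono h7 ?_).trans (measureReal_union_le _ _)
      refine measure_union_ne_top (ne_top_of_le_ne_top (hfin T) (measure_mono fun t ht => ht.1.1.1))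
        (ne_top_of_le_ne_top (hfin T) (measure_mono fun t ht => ht.1))
    have h9 : C * (T * Real.log T ^ (-(κ + b) ^ 2)) ≤ T * Real.log T ^ (-κ ^ 2 - c) / 2 := by
      have e : Real.log T ^ (-κ ^ 2 - c) = Real.log T ^ (-(κ + b) ^ 2) * Real.log T ^ ((κ + b) ^ 2 - κ ^ 2 - c) := by
        rw [← Real.rpow_add hL0]
        congr 1
        ring
      have h10 : 2 * C ≤ Real.log T ^ ((κ + b) ^ 2 - κ ^ 2 - c) := by
        refine h3.trans (Real.rpow_le_rpow_of_exponent_le h5 ?_)
        nlinarith [mul_nonneg hκ hb0.le]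
      rw [e]
      have h11 : 0 ≤ T * Real.log T ^ (-(κ + b) ^ 2) := by positivity
      have h12 := mul_le_mul_of_nonneg_left h10 h11
      linarith
    have h10 : T * Real.log T ^ (-κ ^ 2 - η) ≤ T * Real.log T ^ (-κ ^ 2 - c) / 2 := by
      have e : Real.log T ^ (-κ ^ 2 - c) = Real.log T ^ (-κ ^ 2 - η) * Real.log T ^ (η - c) := by
        rw [← Real.rpow_add hL0]
        congr 1
        ring
      have h11 : 2 ≤ Real.log T ^ (η - c) := h4.trans (Real.rpow_le_rpow_of_exponent_le h5 (by linarith))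
      rw [e]
      have h12 : 0 ≤ T * Real.log T ^ (-κ ^ 2 - η) := by positivity
      have h13 := mul_le_mul_of_nonneg_left h11 h12
      linarith
    linarith

end Pool.Agent.Results.MP_80d0cf_nt.LargeValuesAndUniversality
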