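import Pool.Agent.X111.HO.Low

set_option autoImplicit false

/-!
MP_80d0cf_nt. Unconditional lower bounds for the moments, of every real order, of maxima of zeta over families of shifts next to the
critical line. Let `δ(T) → 0`, `δ(T) log T → ∞`. For every real `k > 0` and every `H ≥ 0`,
`liminf (2δ)^(k²) (1/T) ∫_0^T (max_{|a| ≤ H} |ζ(1/2 + δ + i (t + a δ))|)^(2k) dt ≥ a(k) Λ(k, H)`, where `a(k) > 0` and
`Λ(k, H) = E max_{|a| ≤ H} |f(i a)|^(2k)` for an explicit random function `f`. For `k > 1` there is `c_k > 0` with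
`Λ(k, H) ≥ c_k (1 + H)` for all `H ≥ 0`.
-/

open Filter Topology MeasureTheory

namespace Pool.Agent.Results.MP_80d0cf_nt.MaximaLowerBounds

/-- The generalised divisor function at a prime power: `d_k(p^m) = Γ(k + m) / (Γ(k) m!)`. -/
noncomputable def dk (k : ℝ) (m : ℕ) : ℝ := Real.Gamma (k + m) / (Real.Gamma k * (m.factorial : ℝ))

/-- The arithmetic factor `a(k) = ∏_p (1 - 1/p)^(k²) ∑_m d_k(p^m)² p^(-m)`. -/
noncomputable def ak (k : ℝ) : ℝ :=
  ∏' p : Nat.Primes, ((1 - 1 / (p : ℝ)) ^ (k ^ 2) * ∑' m : ℕ, dk k m ^ 2 / (p : ℝ) ^ m)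

/-- The centred normal law of variance `1/2`. -/
noncomputable def ga : Measure ℝ := ProbabilityTheory.gaussianReal 0 (1 / 2)

/-- The law of a sequence of independent standard complex Gaussian variables, as pairs of real and imaginary parts. -/
noncomputable def noise : Measure (ℕ → ℝ × ℝ) := Measure.infinitePi fun _ => ga.prod ga

/-- The limit field `f(z) = (1 + z/2)^(-k) exp(∑_{n ≥ 1} ξ_n w^n / √n)`, `w = z/(z+2)`, `ξ_{n+1} = ω_n`. -/
noncomputable def field (k : ℝ) (ω : ℕ → ℝ × ℝ) (z : ℂ) : ℂ :=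
  (1 + z / 2) ^ (-(k : ℂ)) *
    Complex.exp (∑' n : ℕ, (((ω n).1 : ℂ) + (ω n).2 * Complex.I) * ((z / (z + 2)) ^ (n + 1) / (Real.sqrt (n + 1) : ℂ)))

/-- The values of zeta at the shifts: `a ↦ ζ(1/2 + δ + i (t + a δ))`. -/
noncomputable def shifts (δ t a : ℝ) : ℂ := riemannZeta (1 / 2 + δ + Complex.I * (t + a * δ))

/-- The constant `Λ(k, H) = E max_{|a| ≤ H} |f(i a)|^(2k)`. -/
noncomputable def Lam (k H : ℝ) : ℝ := ∫ ω, (⨆ a : Set.Icc (-H) H, ‖field k ω (Complex.I * (a : ℝ))‖) ^ (2 * k) ∂noise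

/-- the coefficients -/
lemma dk_lc {k : ℝ} (hk : 0 < k) (m : ℕ) : dk k m = Pool.Agent.H306R2.lc k m := by
  have hG : Real.Gamma k ≠ 0 := (Real.Gamma_pos_of_pos hk).ne'
  unfold dk
  induction m with
  | zero =>
    unfold Pool.Agent.H306R2.lc
    simp [hG]
  | succ m ih =>
    have h1 : Pool.Agent.H306R2.lc k (m + 1) = Pool.Agent.H306R2.lc k m * ((k + m) / ((m : ℝ) + 1)) := by
      unfold Pool.Agent.H306R2.lc
      rw [Finset.prod_range_succ]
    have hkm : k + (m : ℝ) ≠ 0 := by positivity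
    have h2 : Real.Gamma (k + ((m + 1 : ℕ) : ℝ)) = (k + m) * Real.Gamma (k + m) := by
      rw [← Real.Gamma_add_one hkm]
      congr 1
      push_cast
      ring
    have hf : (m.factorial : ℝ) ≠ 0 := by positivity
    rw [h1, ← ih, h2, Nat.factorial_succ]
    push_cast
    field_simp

/-- the arithmetic factor -/
lemma ak_aF {k : ℝ} (hk : 0 < k) : ak k = Pool.Agent.H306R2.aF k := by
  unfold ak Pool.Agent.H306R2.aF
  refine tprod_congr fun p => ?_
  simp_rw [dk_lc hk, one_div, inv_pow, div_eq_mul_inv]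

/-- the field -/
lemma field_fi (k : ℝ) (ω : ℕ → ℝ × ℝ) : field k ω = Pool.Agent.X111.FL.fi k ω := by
  funext z
  unfold field Pool.Agent.X111.FL.fi Pool.Agent.X111.FL.gf Pool.Agent.X111.JD.nn
  rfl

/-- the shifts -/
lemma shifts_zc (δ t a : ℝ) : shifts δ t a = Pool.Agent.X111.JD.zc δ a t := by
  unfold shifts Pool.Agent.X111.JD.zc
  congr 1
  push_cast
  ring

/-- the constants -/
lemma Lam_LM {k H : ℝ} (hH : 0 ≤ H) : Lam k H = Pool.Agent.X111.FZ.LM k H := by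
  have hne : Nonempty (Set.Icc (-H) H) := ⟨⟨0, by constructor <;> linarith⟩⟩
  unfold Lam Pool.Agent.X111.FZ.LM
  refine Eq.symm (integral_congr_ae ?_)
  filter_upwards [Pool.Agent.X111.FL.Gd_ae] with ω hω
  rw [ContinuousMap.norm_eq_iSup_norm]
  simp_rw [Pool.Agent.X111.FL.pth_fi k hω, field_fi]

theorem result :
    (∀ k : ℝ, 0 < k → 0 < ak k ∧
      ∀ δ : ℝ → ℝ, Tendsto δ atTop (𝓝 0) → Tendsto (fun T : ℝ => δ T * Real.log T) atTop atTop → ∀ H : ℝ, 0 ≤ H →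
      ∀ ε : ℝ, 0 < ε → ∀ᶠ T : ℝ in atTop, ak k * Lam k H - ε ≤
        (2 * δ T) ^ (k ^ 2) * (1 / T) * ∫ t in Set.Icc 0 T, (⨆ a : Set.Icc (-H) H, ‖shifts (δ T) t a‖) ^ (2 * k)) ∧
    (∀ k : ℝ, 1 < k → ∃ c : ℝ, 0 < c ∧ ∀ H : ℝ, 0 ≤ H → c * (1 + H) ≤ Lam k H) := by
  refine ⟨fun k hk => ⟨?_, fun δ hδ hδL H hH ε hε => ?_⟩, fun k hk => ?_⟩
  · rw [ak_aF hk]
    exact Pool.Agent.H306R2.aF_pos hk
  · rw [ak_aF hk, Lam_LM hH]
    simp_rw [mul_one_div, shifts_zc]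
    exact Pool.Agent.X111.HO.lowmax hk hδ hδL hH hε
  · obtain ⟨c, hc0, hc⟩ := Pool.Agent.X111.FZ.LM_low hk
    exact ⟨c, hc0, fun H hH => by rw [Lam_LM hH]; exact hc H hH⟩

end Pool.Agent.Results.MP_80d0cf_nt.MaximaLowerBounds
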